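import Pool.Agent.Mon.Defs

/-!
# MON, module CAL1: calculus of cuts, cells, links, pieces
-/

set_option autoImplicit false
set_option linter.unusedSectionVars false
set_option linter.unusedVariables false

namespace Pool.Agent.Mon

open Set Pool.Agent.Helper5.DU Pool.Agent.Helper6.Str Pool.Agent.Helper79.VC
  Pool.Agent.Helper97.VC Pool.Agent.Helper97.MD Pool.Agent.Helper97.LO

open scoped Classical

variable {L : FirstOrder.Language.{0, 0}} {M N : Type} {o : Ops L} {S : L.Structure M}
  {F G : Set M} {x y z x' y' : M} {s t R : L.Relations 2}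

/-! ### cuts -/

theorem rl_mono_left (hM : MonS o S) {R : L.Relations 2} (h : Rl S o.le x' x) (h1 : Rl S R x y) :
    Rl S R x' y := hM.mono R x x' y y h (hM.refl y) h1

theorem rl_mono_right (hM : MonS o S) {R : L.Relations 2} (h : Rl S o.le y y')
    (h1 : Rl S R x y) : Rl S R x y' := hM.mono R x x y y' (hM.refl x) h h1

theorem star_star (hM : MonS o S) (R : L.Relations 2) (x y : M) :
    Rl S (o.st (o.st R)) x y ↔ Rl S R x y := by
  rw [hM.star, hM.star, not_not]

/-- the cut of `s` at `x` is contained in the cut of `R` at `f` -/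
theorem sb_iff (hM : MonS o S) (s : L.Relations 2) (x : M) (R : L.Relations 2) (f : M) :
    Sb o S s x R f ↔ ∀ z, Rl S R f z → Rl S s x z := by
  unfold Sb
  rw [hM.comp]
  constructor
  · intro h z hz
    by_contra hs
    exact h ⟨z, hz, (hM.star s x z).mpr hs⟩
  · rintro h ⟨z, hz, hz'⟩
    exact (hM.star s x z).mp hz' (h z hz)

theorem sp_iff (hM : MonS o S) (s : L.Relations 2) (x : M) (R : L.Relations 2) (f : M) :
    Sp o S s x R f ↔ ∀ z, Rl S s x z → Rl S R f z := by
  unfold Sp
  rw [hM.star, hM.comp]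
  constructor
  · intro h z hz
    by_contra hs
    exact h ⟨z, hz, (hM.star R f z).mpr hs⟩
  · rintro h ⟨z, hz, hz'⟩
    exact (hM.star R f z).mp hz' (h z hz)

/-- cuts are comparable -/
theorem sb_or_sp (hM : MonS o S) (s : L.Relations 2) (x : M) (R : L.Relations 2) (f : M) :
    Sb o S s x R f ∨ Sp o S s x R f := by
  rw [sb_iff hM, sp_iff hM]
  by_contra h
  push Not at h
  obtain ⟨⟨z, hz, hz'⟩, w, hw, hw'⟩ := h
  rcases hM.total z w with h1 | h1
  · exact hw' (rl_mono_right hM h1 hz)
  · exact hz' (rl_mono_right hM h1 hw)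

/-- the cuts of `x ≤ x'` -/
theorem cut_mono (hM : MonS o S) (h : Rl S o.le x x') (s : L.Relations 2) :
    Sb o S s x s x' := by
  rw [sb_iff hM]
  exact fun z hz => rl_mono_left hM h hz

/-! ### cells -/

theorem Cell.refl (S : L.Structure M) (F : Set M) (x : M) : Cell S F x x := fun _ _ _ => Iff.rfl

theorem Cell.symm (h : Cell S F x y) : Cell S F y x := fun f hf R => (h f hf R).symm

theorem Cell.trans (h : Cell S F x y) (h' : Cell S F y z) : Cell S F x z :=
  fun f hf R => (h f hf R).trans (h' f hf R)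

theorem Cell.mono (hFG : F ⊆ G) (h : Cell S G x y) : Cell S F x y :=
  fun f hf R => h f (hFG hf) R

/-- cells are convex -/
theorem Cell.conv (hM : MonS o S) (h : Cell S F x y) (h1 : Rl S o.le x z) (h2 : Rl S o.le z y) :
    Cell S F x z := fun f hf R =>
  ⟨fun h3 => rl_mono_right hM h1 h3, fun h3 => (h f hf R).mpr (rl_mono_right hM h2 h3)⟩

/-- elements of `F` are alone in their cells -/
theorem Cell.eq_of_mem (hM : MonS o S) (hx : x ∈ F) (h : Cell S F x y) : x = y := by
  refine hM.antisymm x y ((h x hx o.le).mp (hM.refl x)) ?_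
  have h1 : ¬ Rl S (o.st o.le) x x := by
    rw [hM.star]
    exact fun h => h (hM.refl x)
  have h2 : ¬ Rl S (o.st o.le) x y := fun h3 => h1 ((h x hx _).mpr h3)
  rw [hM.star, not_not] at h2
  exact h2

/-! ### free cuts -/

theorem Fr.mono (hFG : F ⊆ G) (h : Fr o S G s x y) : Fr o S F s x y :=
  fun f hf R => h f (hFG hf) R

theorem Fr.right (h : Fr o S F s x y) (h' : Cell S F y y') : Fr o S F s x y' := by
  intro f hf R
  rw [← h' f hf R]
  exact h f hf R

theorem Fr.left (h : Fr o S F s x y) (h' : Cell S F x x') : Fr o S F s x' y := by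
  intro f hf R
  unfold Sb Sp
  rw [← h' f hf, ← h' f hf]
  exact h f hf R

/-- the cut of `R` at `f ∈ F` is not free -/
theorem Fr.not_mem (hM : MonS o S) (hx : x ∈ F) : ¬ Fr o S F s x y := by
  intro h
  refine (h x hx s).2 ⟨?_, ?_⟩
  · rw [sb_iff hM]
    exact fun _ h => h
  · rw [sp_iff hM]
    exact fun _ h => h

/-- the cut is contained in a cut of the closed set iff the element is -/
theorem Fr.sb (h : Fr o S F s x y) {f : M} (hf : f ∈ F) (R : L.Relations 2) :
    Sb o S s x R f ↔ ¬ Rl S R f y := (h f hf R).1.symm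

theorem Fr.sp (hM : MonS o S) (h : Fr o S F s x y) {f : M} (hf : f ∈ F) (R : L.Relations 2) :
    Sp o S s x R f ↔ Rl S R f y := by
  constructor
  · intro h1
    by_contra h2
    exact (h f hf R).2 ⟨(h.sb hf R).mpr h2, h1⟩
  · intro h1
    rcases sb_or_sp hM s x R f with h2 | h2
    · exact absurd h1 ((h.sb hf R).mp h2)
    · exact h2

/-- **L2** -/
theorem Fr.symm (hM : MonS o S) (h : Fr o S F s x y) : Fr o S F (o.st s) y x := by
  intro f hf R
  -- `s*(y) ⊆ R(f)` iff `y` is in the cut of `R ∘ s` at `f`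
  have e1 : Sb o S (o.st s) y R f ↔ ¬ Rl S (o.cm R s) f y := by
    unfold Sb
    rw [hM.comp, hM.comp]
    refine not_congr (exists_congr fun z => and_congr Iff.rfl ?_)
    rw [hM.star, hM.star, not_not]
  -- `R(f) ⊆ s*(y)` iff `y` is not in the cut of `R · s` at `f`
  have e2 : Sp o S (o.st s) y R f ↔ Rl S (o.st (o.cm (o.st s) (o.st R))) f y := by
    unfold Sp
    exact Iff.rfl
  have k1 := h.sb hf (o.cm R s)
  have k2 := h.sb hf (o.st (o.cm (o.st s) (o.st R)))
  by_cases hx : Rl S R f x
  · -- `x` not in the cut `C`: the cut `C⁺` is contained in `s(x)`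
    have h1 : Sp o S s x (o.cm R s) f := by
      rw [sp_iff hM]
      intro z hz
      rw [hM.comp]
      exact ⟨x, hx, hz⟩
    have h2 : Rl S (o.cm R s) f y := (h.sp hM hf _).mp h1
    refine ⟨⟨fun h3 => absurd hx h3, fun h3 => absurd h2 (e1.mp h3)⟩, fun h3 => ?_⟩
    exact e1.mp h3.1 h2
  · -- `x` in the cut `C`: `s(x)` is contained in `C⁻`
    have h1 : Sb o S s x (o.st (o.cm (o.st s) (o.st R))) f := by
      rw [sb_iff hM]
      intro z hz
      rw [hM.star, hM.comp] at hz
      by_contra h3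
      exact hz ⟨x, (hM.star s x z).mpr h3, (hM.star R f x).mpr hx⟩
    have h2 : ¬ Rl S (o.st (o.cm (o.st s) (o.st R))) f y := k2.mp h1
    have h3 : ¬ Rl S (o.cm R s) f y := by
      intro h3
      apply h2
      rw [hM.star, hM.comp]
      rintro ⟨w, hw1, hw2⟩
      rw [hM.star] at hw1 hw2
      rw [hM.comp] at h3
      obtain ⟨w', hw3, hw4⟩ := h3
      rcases hM.total w w' with h5 | h5
      · exact hw1 (rl_mono_left hM h5 hw4)
      · exact hw2 (rl_mono_right hM h5 hw3)
    refine ⟨⟨fun _ => e1.mpr h3, fun _ => hx⟩, fun h4 => h2 (e2.mp h4.2)⟩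

end Pool.Agent.Mon
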