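import Pool.Agent.Mon.CAL1

/-!
# MON, module CAL2: composition of free cuts, pieces
-/

set_option autoImplicit false
set_option linter.unusedSectionVars false
set_option linter.unusedVariables false

namespace Pool.Agent.Mon

open Set Pool.Agent.Helper5.DU Pool.Agent.Helper6.Str Pool.Agent.Helper79.VC
  Pool.Agent.Helper97.VC Pool.Agent.Helper97.MD Pool.Agent.Helper97.LO

open scoped Classical

variable {L : FirstOrder.Language.{0, 0}} {M N : Type} {o : Ops L} {S : L.Structure M}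
  {F G : Set M} {x y z x' y' : M} {s t R : L.Relations 2}

/-- **L3** -/
theorem Fr.comp (hM : MonS o S) (h : Fr o S F s x y) (h' : Fr o S F t y z) :
    Fr o S F (o.cm s t) x z := by
  intro f hf R
  have e0 : Sb o S t y R f ↔ ¬ Rl S (o.cm R (o.st t)) f y := by
    unfold Sb
    exact Iff.rfl
  have k1 : Sb o S (o.cm s t) x R f ↔ Sb o S s x (o.cm R (o.st t)) f := by
    rw [sb_iff hM, sb_iff hM]
    constructor
    · intro h1 w hw
      by_contra hs
      obtain ⟨z0, hz1, hz2⟩ := (hM.comp _ _ _ _).mp hw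
      rw [hM.star] at hz2
      obtain ⟨w', hw1, hw2⟩ := (hM.comp _ _ _ _).mp (h1 z0 hz1)
      rcases hM.total w w' with h2 | h2
      · exact hz2 (rl_mono_left hM h2 hw2)
      · exact hs (rl_mono_right hM h2 hw1)
    · intro h1 z0 hz0
      have h2 : ¬ Sp o S s x (o.cm R (o.st t)) f := fun h2 =>
        (h f hf _).2 ⟨(sb_iff hM _ _ _ _).mpr h1, h2⟩
      rw [sp_iff hM] at h2
      push Not at h2
      obtain ⟨w, hw1, hw2⟩ := h2
      refine (hM.comp _ _ _ _).mpr ⟨w, hw1, ?_⟩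
      by_contra h3
      exact hw2 ((hM.comp _ _ _ _).mpr ⟨z0, hz0, (hM.star _ _ _).mpr h3⟩)
  have k2 : Sp o S (o.cm s t) x R f → Sp o S s x (o.st (o.cm t (o.st R))) f := by
    rw [sp_iff hM, sp_iff hM]
    intro h1 w hw
    rw [hM.star, hM.comp]
    rintro ⟨z0, hz1, hz2⟩
    rw [hM.star] at hz2
    exact hz2 (h1 z0 ((hM.comp _ _ _ _).mpr ⟨w, hw, hz1⟩))
  constructor
  · rw [k1, h.sb hf, ← e0, ← (h' f hf R).1]
  · rintro ⟨h1, h2⟩
    have h3 : Sb o S t y R f := by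
      rw [e0, ← h.sb hf]
      exact k1.mp h1
    have h4 : Sp o S t y R f := by
      have := (h.sp hM hf _).mp (k2 h2)
      exact this
    exact (h' f hf R).2 ⟨h3, h4⟩

/-! ### pieces -/

theorem Pc.refl (o : Ops L) (S : L.Structure M) (F : Set M) (x : M) : Pc o S F x x :=
  Or.inl (Cell.refl S F x)

theorem Pc.symm (hM : MonS o S) (h : Pc o S F x y) : Pc o S F y x := by
  rcases h with h | ⟨s, h⟩
  · exact Or.inl h.symm
  · exact Or.inr ⟨_, h.symm hM⟩

theorem Pc.trans (hM : MonS o S) (h : Pc o S F x y) (h' : Pc o S F y z) : Pc o S F x z := by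
  rcases h with h | ⟨s, h⟩ <;> rcases h' with h' | ⟨t, h'⟩
  · exact Or.inl (h.trans h')
  · exact Or.inr ⟨t, h'.left h.symm⟩
  · exact Or.inr ⟨s, h.right h'⟩
  · exact Or.inr ⟨_, h.comp hM h'⟩

theorem Pc.mono (hFG : F ⊆ G) (h : Pc o S G x y) : Pc o S F x y := by
  rcases h with h | ⟨s, h⟩
  · exact Or.inl (h.mono hFG)
  · exact Or.inr ⟨s, h.mono hFG⟩

theorem Pc.eq_of_mem (hM : MonS o S) (hx : x ∈ F) (h : Pc o S F x y) : x = y := by
  rcases h with h | ⟨s, h⟩
  · exact h.eq_of_mem hM hx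
  · exact absurd h (Fr.not_mem hM hx)

theorem vp_self (o : Ops L) (S : L.Structure M) (F : Set M) (x : M) : x ∈ Vp o S F x :=
  Pc.refl o S F x

theorem vp_eq (hM : MonS o S) (h : y ∈ Vp o S F x) : Vp o S F y = Vp o S F x := by
  ext z
  exact ⟨fun hz => Pc.trans hM h hz, fun hz => Pc.trans hM (Pc.symm hM h) hz⟩

theorem vp_mono (hFG : F ⊆ G) (x : M) : Vp o S G x ⊆ Vp o S F x := fun y hy => Pc.mono hFG hy

theorem vp_mem (hM : MonS o S) (hx : x ∈ F) : Vp o S F x = {x} := by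
  ext z
  exact ⟨fun hz => (Pc.eq_of_mem hM hx hz).symm, fun hz => by
    rw [mem_singleton_iff.mp hz]; exact vp_self o S F x⟩

theorem vp_iv (hM : MonS o S) (F : Set M) (x : M) : Iv o S F (Vp o S F x) :=
  fun y hy z hz => Pc.trans hM hy hz

theorem Iv.mono {X : Set M} (hFG : F ⊆ G) (h : Iv o S F X) : Iv o S G X :=
  fun x hx y hy => h x hx y (Pc.mono hFG hy)

theorem Iv.compl {X : Set M} (hM : MonS o S) (h : Iv o S F X) : Iv o S F Xᶜ :=
  fun x hx y hy hyX => hx (h y hyX x (Pc.symm hM hy))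

theorem Iv.inter {X Y : Set M} (h : Iv o S F X) (h' : Iv o S F Y) : Iv o S F (X ∩ Y) :=
  fun x hx y hy => ⟨h x hx.1 y hy, h' x hx.2 y hy⟩

theorem Iv.union {X Y : Set M} (h : Iv o S F X) (h' : Iv o S F Y) : Iv o S F (X ∪ Y) :=
  fun x hx y hy => hx.imp (fun hx => h x hx y hy) fun hx => h' x hx y hy

theorem Iv.diff {X Y : Set M} (hM : MonS o S) (h : Iv o S F X) (h' : Iv o S F Y) :
    Iv o S F (X \ Y) := h.inter (h'.compl hM)

theorem Iv.univ (o : Ops L) (S : L.Structure M) (F : Set M) : Iv o S F Set.univ :=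
  fun _ _ _ _ => mem_univ _

theorem Iv.cell {X : Set M} (h : Iv o S F X) (hxy : Cell S F x y) : x ∈ X ↔ y ∈ X :=
  ⟨fun hx => h x hx y (Or.inl hxy), fun hy => h y hy x (Or.inl hxy.symm)⟩

theorem vp_subset {X : Set M} (h : Iv o S F X) (hx : x ∈ X) : Vp o S F x ⊆ X :=
  fun y hy => h x hx y hy

end Pool.Agent.Mon
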