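import Pool.Agent.Mon.CAL2

/-!
# MON, module CAL3: the cross rule, pieces over larger sets
-/

set_option autoImplicit false
set_option linter.unusedSectionVars false
set_option linter.unusedVariables false

namespace Pool.Agent.Mon

open Set Pool.Agent.Helper5.DU Pool.Agent.Helper6.Str Pool.Agent.Helper79.VC
  Pool.Agent.Helper97.VC Pool.Agent.Helper97.MD Pool.Agent.Helper97.LO

open scoped Classical

variable {L : FirstOrder.Language.{0, 0}} {M N : Type} {o : Ops L} {S : L.Structure M}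
  {T : L.Structure N} {F G : Set M} {x y z x' y' g : M} {s t R : L.Relations 2}
  {q : Set (M × N)} {a b : M × N}

/-- the pair `a` has the same relations to the pairs in `q` -/
def Mat (S : L.Structure M) (T : L.Structure N) (q : Set (M × N)) (a : M × N) : Prop :=
  ∀ c ∈ q, ∀ R : L.Relations 2, Rl S R c.1 a.1 ↔ Rl T R c.2 a.2

theorem mat_dg {F : Set M} {x y : M} : Mat S S (dg F) (x, y) ↔ Cell S F x y := by
  constructor
  · intro h f hf R
    exact h (f, f) ⟨f, hf, rfl⟩ R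
  · rintro h _ ⟨f, hf, rfl⟩ R
    exact h f hf R

theorem cell_mat (ha : Mat S T q a) (hb : Mat S T q b) :
    Cell S (Prod.fst '' q) a.1 b.1 ↔ Cell T (Prod.snd '' q) a.2 b.2 := by
  constructor
  · rintro h _ ⟨c, hc, rfl⟩ R
    rw [← ha c hc R, ← hb c hc R]
    exact h c.1 ⟨c, hc, rfl⟩ R
  · rintro h _ ⟨c, hc, rfl⟩ R
    rw [ha c hc R, hb c hc R]
    exact h c.2 ⟨c, hc, rfl⟩ R

theorem fr_mat (ha : Mat S T q a) (hb : Mat S T q b) :
    Fr o S (Prod.fst '' q) s a.1 b.1 ↔ Fr o T (Prod.snd '' q) s a.2 b.2 := by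
  constructor
  · rintro h _ ⟨c, hc, rfl⟩ R
    have := h c.1 ⟨c, hc, rfl⟩ R
    unfold Sb Sp at this ⊢
    rw [ha c hc, ha c hc, hb c hc] at this
    exact this
  · rintro h _ ⟨c, hc, rfl⟩ R
    have := h c.2 ⟨c, hc, rfl⟩ R
    unfold Sb Sp at this ⊢
    rw [ha c hc, ha c hc, hb c hc]
    exact this

theorem pc_mat (ha : Mat S T q a) (hb : Mat S T q b) :
    Pc o S (Prod.fst '' q) a.1 b.1 ↔ Pc o T (Prod.snd '' q) a.2 b.2 :=
  or_congr (cell_mat ha hb) (exists_congr fun s => fr_mat ha hb)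

/-- **L4** -/
theorem cross_rl (hM : MonS o S) (hN : MonS o T) (ha : Mat S T q a) (hb : Mat S T q b)
    (hab : ¬ Pc o S (Prod.fst '' q) a.1 b.1) (R : L.Relations 2) :
    Rl S R a.1 b.1 ↔ Rl T R a.2 b.2 := by
  by_cases h : ∃ c ∈ q, ∃ Q, Sb o S R a.1 Q c.1 ∧ Sp o S R a.1 Q c.1
  · obtain ⟨c, hc, Q, h1, h2⟩ := h
    have h3 : Sb o T R a.2 Q c.2 := by
      unfold Sb at h1 ⊢
      rwa [← ha c hc]
    have h4 : Sp o T R a.2 Q c.2 := by
      unfold Sp at h2 ⊢
      rwa [← ha c hc]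
    rw [sb_iff hM] at h1
    rw [sb_iff hN] at h3
    rw [sp_iff hM] at h2
    rw [sp_iff hN] at h4
    have e1 : Rl S R a.1 b.1 ↔ Rl S Q c.1 b.1 := ⟨h2 _, h1 _⟩
    have e2 : Rl T R a.2 b.2 ↔ Rl T Q c.2 b.2 := ⟨h4 _, h3 _⟩
    rw [e1, e2]
    exact hb c hc Q
  · push Not at h
    have h1 : ¬ Fr o S (Prod.fst '' q) R a.1 b.1 := fun h' => hab (Or.inr ⟨R, h'⟩)
    unfold Fr at h1
    push Not at h1
    obtain ⟨_, ⟨c, hc, rfl⟩, Q, h2⟩ := h1
    have h3 : ¬ (¬ Rl S Q c.1 b.1 ↔ Sb o S R a.1 Q c.1) := by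
      intro h3
      obtain ⟨h4, h5⟩ := h2 h3
      exact h c hc Q h4 h5
    by_cases h4 : Rl S Q c.1 b.1
    · have h5 : Sb o S R a.1 Q c.1 := by
        by_contra h5
        exact h3 ⟨fun h6 => absurd h4 h6, fun h6 => absurd h6 h5⟩
      have h6 : Sb o T R a.2 Q c.2 := by
        unfold Sb at h5 ⊢
        rwa [← ha c hc]
      have h7 := (hb c hc Q).mp h4
      exact ⟨fun _ => (sb_iff hN _ _ _ _).mp h6 _ h7, fun _ => (sb_iff hM _ _ _ _).mp h5 _ h4⟩
    · have h5 : ¬ Sb o S R a.1 Q c.1 := by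
        intro h5
        exact h3 ⟨fun _ => h5, fun _ => h4⟩
      have h6 : Sp o S R a.1 Q c.1 := (sb_or_sp hM _ _ _ _).resolve_left h5
      have h7 : Sp o T R a.2 Q c.2 := by
        unfold Sp at h6 ⊢
        rwa [← ha c hc]
      have h8 : ¬ Rl T Q c.2 b.2 := fun h' => h4 ((hb c hc Q).mpr h')
      exact ⟨fun h' => absurd ((sp_iff hM _ _ _ _).mp h6 _ h') h4,
        fun h' => absurd ((sp_iff hN _ _ _ _).mp h7 _ h') h8⟩

/-- the relations of the elements of a piece to an element outside -/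
theorem auto_rl (hM : MonS o S) (h : Cell S F x x') (hg : ¬ Pc o S F x g) (R : L.Relations 2) :
    (Rl S R x g ↔ Rl S R x' g) ∧ (Rl S R g x ↔ Rl S R g x') := by
  have e : Prod.fst '' dg F = F := by
    ext z
    constructor
    · rintro ⟨_, ⟨f, hf, rfl⟩, rfl⟩
      exact hf
    · intro hz
      exact ⟨(z, z), ⟨z, hz, rfl⟩, rfl⟩
  have h1 : Mat S S (dg F) (x, x') := mat_dg.mpr h
  have h2 : Mat S S (dg F) (g, g) := mat_dg.mpr (Cell.refl S F g)
  constructor
  · exact cross_rl hM hM h1 h2 (by rwa [e]) R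
  · exact cross_rl hM hM h2 h1 (by rw [e]; exact fun h' => hg (Pc.symm hM h')) R

/-- **L5** -/
theorem pc_sep (hM : MonS o S) (hG : ∀ g ∈ G, ¬ Pc o S F x g) (h : Pc o S F x y) :
    Pc o S (F ∪ G) x y := by
  rcases h with h | ⟨s, h⟩
  · left
    rintro f (hf | hf) R
    · exact h f hf R
    · exact (auto_rl hM h (hG f hf) R).2
  · right
    refine ⟨s, ?_⟩
    rintro g (hg | hg) R
    · exact h g hg R
    · -- a link of `g` to `y` is impossible
      have hno : ¬ Fr o S F R g y := by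
        intro h1
        exact hG g hg (Pc.trans hM (Or.inr ⟨s, h⟩) (Pc.symm hM (Or.inr ⟨R, h1⟩)))
      -- comparison of the cut `R(g)` with cuts over `F`
      have tr1 : Sb o S s x R g → ∀ f Q, Sb o S R g Q f → Sb o S s x Q f := by
        intro h1 f Q h2
        rw [sb_iff hM] at h1 h2 ⊢
        exact fun z hz => h1 z (h2 z hz)
      have tr2 : Sp o S s x R g → ∀ f Q, Sb o S s x Q f → Sb o S R g Q f := by
        intro h1 f Q h2
        rw [sp_iff hM] at h1
        rw [sb_iff hM] at h2 ⊢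
        exact fun z hz => h1 z (h2 z hz)
      constructor
      · constructor
        · intro hy
          by_contra hsb
          have hsp : Sp o S s x R g := (sb_or_sp hM _ _ _ _).resolve_left hsb
          refine hno fun f hf Q => ⟨⟨fun h1 => tr2 hsp f Q ((h.sb hf Q).mpr h1), fun h1 h2 => ?_⟩,
            ?_⟩
          · exact hy ((sb_iff hM _ _ _ _).mp h1 _ h2)
          · rintro ⟨h1, h2⟩
            have h3 : ¬ Rl S Q f y := fun h3 => hy ((sb_iff hM _ _ _ _).mp h1 _ h3)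
            have h4 : Sb o S s x Q f := (h.sb hf Q).mpr h3
            refine hsb ?_
            rw [sb_iff hM] at h4 ⊢
            rw [sp_iff hM] at h2
            exact fun z hz => h4 z (h2 z hz)
        · intro hsb hy
          refine hno fun f hf Q => ⟨⟨fun h1 => ?_, fun h1 => (h.sb hf Q).mp (tr1 hsb f Q h1)⟩, ?_⟩
          · by_contra h2
            have h3 := (sb_or_sp hM R g Q f).resolve_left h2
            exact h1 ((sp_iff hM _ _ _ _).mp h3 _ hy)
          · rintro ⟨h1, h2⟩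
            have h3 : ¬ Rl S Q f y := (h.sb hf Q).mp (tr1 hsb f Q h1)
            exact h3 ((sp_iff hM _ _ _ _).mp h2 _ hy)
      · rintro ⟨hsb, hsp⟩
        refine hno fun f hf Q => ?_
        have e1 : Sb o S R g Q f ↔ Sb o S s x Q f := ⟨tr1 hsb f Q, tr2 hsp f Q⟩
        have e2 : Sp o S R g Q f ↔ Sp o S s x Q f := by
          rw [sp_iff hM] at hsp ⊢
          rw [sb_iff hM] at hsb
          rw [sp_iff hM]
          exact ⟨fun h1 z hz => h1 z (hsp z hz), fun h1 z hz => h1 z (hsb z hz)⟩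
        rw [e1, e2]
        exact h f hf Q

theorem Iv.drop {X Y : Set M} (hM : MonS o S) (hX : Iv o S F X) (hYX : Y ⊆ X)
    (hY : Iv o S (F ∪ G) Y) : Iv o S (F ∪ (G ∩ X)) Y := by
  intro y hy z hz
  refine hY y hy z ?_
  have h1 : Pc o S (F ∪ (G ∩ X) ∪ (G \ X)) y z := by
    refine pc_sep hM (fun g hg h => hg.2 ?_) hz
    exact hX y (hYX hy) g (Pc.mono subset_union_left h)
  refine Pc.mono ?_ h1
  rintro f (hf | hf)
  · exact Or.inl (Or.inl hf)
  · by_cases hfX : f ∈ X
    · exact Or.inl (Or.inr ⟨hf, hfX⟩)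
    · exact Or.inr ⟨hf, hfX⟩

/-- if `G` does not meet the piece over `F` then the piece is contained in the piece over `G` -/
theorem vp_subset_of_disj (hM : MonS o S) (hG : ∀ g ∈ G, g ∉ Vp o S F x) :
    Vp o S F x ⊆ Vp o S G x := fun y hy =>
  Pc.mono subset_union_right (pc_sep hM hG hy)

theorem vp_union_of_disj (hM : MonS o S) (hG : ∀ g ∈ G, g ∉ Vp o S F x) :
    Vp o S (F ∪ G) x = Vp o S F x :=
  Subset.antisymm (vp_mono subset_union_left x) fun y hy => pc_sep hM hG hy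

/-! ### atomic equivalence -/

theorem rl_at {p : Set (M × N)} (h : AtEq S T p) (ha : a ∈ p) (hb : b ∈ p) (R : L.Relations 2) :
    Rl S R a.1 b.1 ↔ Rl T R a.2 b.2 := by
  have h1 := h.2 2 R ![a, b] (by
    intro i
    refine Fin.cases ?_ (fun i => ?_) i
    · exact ha
    · refine Fin.cases ?_ (fun i => i.elim0) i
      exact hb)
  have e1 : (fun i => ((![a, b] : Fin 2 → M × N) i).1) = ![a.1, b.1] := by
    funext i
    refine Fin.cases rfl (fun i => ?_) i
    exact Fin.cases rfl (fun i => i.elim0) i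
  have e2 : (fun i => ((![a, b] : Fin 2 → M × N) i).2) = ![a.2, b.2] := by
    funext i
    refine Fin.cases rfl (fun i => ?_) i
    exact Fin.cases rfl (fun i => i.elim0) i
  rw [e1, e2] at h1
  exact h1

theorem mat_of_at {p : Set (M × N)} (h : AtEq S T p) (hq : q ⊆ p) (ha : a ∈ p) :
    Mat S T q a := fun c hc R => rl_at h (hq hc) ha R

theorem pc_at (ha : AtEq S T (insert a q)) (hb : AtEq S T (insert b q)) :
    Pc o S (Prod.fst '' q) a.1 b.1 ↔ Pc o T (Prod.snd '' q) a.2 b.2 :=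
  pc_mat (mat_of_at ha (subset_insert _ _) (mem_insert _ _))
    (mat_of_at hb (subset_insert _ _) (mem_insert _ _))

/-- **L4**, atomic types -/
theorem cross_at (hL : Ar2 L) (hM : MonS o S) (hN : MonS o T) (ha : AtEq S T (insert a q))
    (hb : AtEq S T (insert b q)) (hab : ¬ Pc o S (Prod.fst '' q) a.1 b.1) :
    AtEq S T {a, b} := by
  have ha' := mat_of_at ha (subset_insert a q) (mem_insert _ _)
  have hb' := mat_of_at hb (subset_insert b q) (mem_insert _ _)
  have h1 : AtEq S T {a} := AtEq.anti (singleton_subset_iff.mpr (mem_insert _ _)) ha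
  have h2 : AtEq S T {b} := AtEq.anti (singleton_subset_iff.mpr (mem_insert _ _)) hb
  have hne : a.1 ≠ b.1 := fun h => hab (h ▸ Pc.refl o S _ _)
  have hab2 : ¬ Pc o T (Prod.snd '' q) a.2 b.2 := fun h => hab ((pc_mat ha' hb').mpr h)
  have hne2 : a.2 ≠ b.2 := fun h => hab2 (h ▸ Pc.refl o T _ _)
  refine atEq_pair hL h1 h2 ⟨fun h => absurd h hne, fun h => absurd h hne2⟩ ?_
  refine Prod.ext ?_ ?_
  · ext R
    exact cross_rl hM hN ha' hb' hab R
  · ext R
    exact cross_rl hM hN hb' ha' (fun h => hab (Pc.symm hM h)) R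

/-- the same for one structure -/
theorem auto_at (hL : Ar2 L) (hM : MonS o S) (ha : AtEq S S (insert (x, x') (dg F)))
    (hg : ¬ Pc o S F x g) : AtEq S S {(x, x'), (g, g)} := by
  have e : Prod.fst '' dg F = F := by
    ext z
    constructor
    · rintro ⟨_, ⟨f, hf, rfl⟩, rfl⟩
      exact hf
    · intro hz
      exact ⟨(z, z), ⟨z, hz, rfl⟩, rfl⟩
  refine cross_at (o := o) hL hM hM ha (TR.atEq_refl S ?_) (by rwa [e])
  rintro c (rfl | ⟨f, hf, rfl⟩) <;> rfl

end Pool.Agent.Mon
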