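import Pool.Agent.VLin.Defs

/-!
# Linear orders with countably many monotone relations: definitions

Paper proof: team-store MON_paper.md.
-/

set_option autoImplicit false
set_option linter.unusedSectionVars false
set_option linter.unusedVariables false

namespace Pool.Agent.Mon

open Set Pool.Agent.Helper5.DU Pool.Agent.Helper6.Str Pool.Agent.Helper79.VC
  Pool.Agent.Helper97.VC Pool.Agent.Helper97.MD Pool.Agent.Helper97.LO

open scoped Classical

variable {L : FirstOrder.Language.{0, 0}} {M N : Type}

/-- operations on the binary symbols: the order, duals, compositions -/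
structure Ops (L : FirstOrder.Language.{0, 0}) where
  le : L.Relations 2
  st : L.Relations 2 → L.Relations 2
  cm : L.Relations 2 → L.Relations 2 → L.Relations 2

/-- the binary relation given by a symbol -/
def Rl (S : L.Structure M) (R : L.Relations 2) (x y : M) : Prop := S.RelMap R ![x, y]

/-- `o.le` is a linear order, all binary symbols are monotone relations, and they are closed under
duals and composition -/
structure MonS (o : Ops L) (S : L.Structure M) : Prop where
  refl : ∀ x, Rl S o.le x x
  antisymm : ∀ x y, Rl S o.le x y → Rl S o.le y x → x = y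
  trans : ∀ x y z, Rl S o.le x y → Rl S o.le y z → Rl S o.le x z
  total : ∀ x y, Rl S o.le x y ∨ Rl S o.le y x
  mono : ∀ R x x' y y', Rl S o.le x' x → Rl S o.le y y' → Rl S R x y → Rl S R x' y'
  star : ∀ R x y, Rl S (o.st R) y x ↔ ¬ Rl S R x y
  comp : ∀ R Q x z, Rl S (o.cm R Q) x z ↔ ∃ y, Rl S R x y ∧ Rl S Q y z

/-- the cut of `s` at `x` (the set of all `y` with `¬ s x y`) is contained in the cut of `R`
at `f` -/
def Sb (o : Ops L) (S : L.Structure M) (s : L.Relations 2) (x : M) (R : L.Relations 2) (f : M) :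
    Prop :=
  ¬ Rl S (o.cm R (o.st s)) f x

/-- the cut of `R` at `f` is contained in the cut of `s` at `x` -/
def Sp (o : Ops L) (S : L.Structure M) (s : L.Relations 2) (x : M) (R : L.Relations 2) (f : M) :
    Prop :=
  Rl S (o.st (o.cm s (o.st R))) f x

/-- `x` and `y` are in the same cell over `F` -/
def Cell (S : L.Structure M) (F : Set M) (x y : M) : Prop :=
  ∀ f ∈ F, ∀ R : L.Relations 2, Rl S R f x ↔ Rl S R f y

/-- the cut of `s` at `x` is free over `F` and in the cell of `y` -/
def Fr (o : Ops L) (S : L.Structure M) (F : Set M) (s : L.Relations 2) (x y : M) : Prop :=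
  ∀ f ∈ F, ∀ R : L.Relations 2, (¬ Rl S R f y ↔ Sb o S s x R f) ∧
    ¬ (Sb o S s x R f ∧ Sp o S s x R f)

/-- `x` and `y` are in the same piece over `F` -/
def Pc (o : Ops L) (S : L.Structure M) (F : Set M) (x y : M) : Prop :=
  Cell S F x y ∨ ∃ s, Fr o S F s x y

/-- the piece of `x` over `F` -/
def Vp (o : Ops L) (S : L.Structure M) (F : Set M) (x : M) : Set M := {y | Pc o S F x y}

/-- `X` is a union of pieces over `F` -/
def Iv (o : Ops L) (S : L.Structure M) (F X : Set M) : Prop := ∀ x ∈ X, ∀ y, Pc o S F x y → y ∈ X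

/-- the preorder on the pieces over `F` -/
def LeF (o : Ops L) (S : L.Structure M) (F : Set M) (u v : M) : Prop :=
  (Cell S F u v ∧ Rl S o.le u v) ∨ ∃ s, Fr o S F s v u ∧ ¬ Rl S s v u

/-- the elements over which `x` and `y` are in different cells -/
def Sat (S : L.Structure M) (x y : M) : Set M := {u | ∃ R, ¬ (Rl S R x u ↔ Rl S R y u)}

/-- the relation `≈` -/
def Apx (S : L.Structure M) (x y : M) : Prop := TT S (Sat S x y)

/-- `ζ` is a level of the piece `X` with the cells over `F` named -/
def Lv (S : L.Structure M) (F X : Set M) (ζ : Ordinal.{0}) : Prop :=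
  ∀ p : Set (M × M), p.Finite → (∀ a ∈ p, a.1 ∈ X ∧ a.2 ∈ X) → BFR S S X X ζ (p ∪ dg F) →
    BFI S S X X (p ∪ dg F)

/-- `ζ` is a level of the saturation of `x`, `y` -/
def LvS (S : L.Structure M) (x y : M) (ζ : Ordinal.{0}) : Prop := Lv S {x, y} (Sat S x y) ζ

/-- the classes of `x` and `y` are linked by `R` -/
def Lk (S : L.Structure M) (R : L.Relations 2) (x y : M) : Prop :=
  ∃ x₁ x₂ y₁, Apx S x x₁ ∧ Apx S x x₂ ∧ Apx S y y₁ ∧ ¬ (Rl S R x₁ y₁ ↔ Rl S R x₂ y₁)

/-- one step in a component -/
def Stp (S : L.Structure M) (x y : M) : Prop :=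
  Apx S x y ∨ (∃ R, Lk S R x y) ∨ ∃ R, Lk S R y x

/-- `x` and `y` are in the same component -/
def Cmp (S : L.Structure M) (x y : M) : Prop := Relation.ReflTransGen (Stp S) x y

/-- countable ordinals closed under addition, above `ω` -/
structure GdO (ζ : Ordinal.{0}) : Prop where
  om : Ordinal.omega0 < ζ
  lt : ζ < om1
  add : ∀ a < ζ, ∀ b < ζ, a + b < ζ

end Pool.Agent.Mon
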