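import Pool.Agent.Mon.CAL3

/-!
# MON, module ORD: the preorder on a piece, saturations
-/

set_option autoImplicit false
set_option linter.unusedSectionVars false
set_option linter.unusedVariables false

namespace Pool.Agent.Mon

open Set Pool.Agent.Helper5.DU Pool.Agent.Helper6.Str Pool.Agent.Helper79.VC
  Pool.Agent.Helper97.VC Pool.Agent.Helper97.MD Pool.Agent.Helper97.LO

open scoped Classical

variable {L : FirstOrder.Language.{0, 0}} {M N : Type} {o : Ops L} {S : L.Structure M}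
  {T : L.Structure N} {F G : Set M} {x y z u v w x' y' g : M} {s t R : L.Relations 2}

/-! ### the preorder (O1) -/

theorem LeF.refl (hM : MonS o S) (F : Set M) (u : M) : LeF o S F u u :=
  Or.inl ⟨Cell.refl S F u, hM.refl u⟩

theorem LeF.pc (hM : MonS o S) (h : LeF o S F u v) : Pc o S F u v := by
  rcases h with h | ⟨s, h, -⟩
  · exact Or.inl h.1
  · exact Pc.symm hM (Or.inr ⟨s, h⟩)

theorem LeF.trans (hM : MonS o S) (h : LeF o S F u v) (h' : LeF o S F v w) :
    LeF o S F u w := by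
  rcases h with ⟨h1, h2⟩ | ⟨s, h1, h2⟩ <;> rcases h' with ⟨h3, h4⟩ | ⟨t, h3, h4⟩
  · exact Or.inl ⟨h1.trans h3, hM.trans _ _ _ h2 h4⟩
  · exact Or.inr ⟨t, h3.right h1.symm, fun h => h4 (rl_mono_right hM h2 h)⟩
  · exact Or.inr ⟨s, h1.left h3, fun h => h2 (rl_mono_left hM h4 h)⟩
  · refine Or.inr ⟨_, h3.comp hM h1, fun h => ?_⟩
    obtain ⟨y, hy1, hy2⟩ := (hM.comp _ _ _ _).mp h
    rcases hM.total v y with h5 | h5
    · exact h2 (rl_mono_left hM h5 hy2)
    · exact h4 (rl_mono_right hM h5 hy1)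

theorem LeF.total (hM : MonS o S) (h : Pc o S F u v) : LeF o S F u v ∨ LeF o S F v u := by
  rcases h with h | ⟨s, h⟩
  · rcases hM.total u v with h1 | h1
    · exact Or.inl (Or.inl ⟨h, h1⟩)
    · exact Or.inr (Or.inl ⟨h.symm, h1⟩)
  · by_cases h1 : Rl S s u v
    · left
      refine Or.inr ⟨o.st s, h.symm hM, fun h2 => ?_⟩
      exact (hM.star s u v).mp h2 h1
    · exact Or.inr (Or.inr ⟨s, h, h1⟩)

theorem LeF.of_cell (h : Cell S F u v) (h1 : Rl S o.le u v) : LeF o S F u v := Or.inl ⟨h, h1⟩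

/-- `u ≤_F v` is determined by atomic types over `F` -/
theorem lef_mat {q : Set (M × N)} {a b : M × N} (ha : Mat S T q a) (hb : Mat S T q b)
    (hab : ∀ R : L.Relations 2, Rl S R a.1 b.1 ↔ Rl T R a.2 b.2)
    (hba : ∀ R : L.Relations 2, Rl S R b.1 a.1 ↔ Rl T R b.2 a.2) :
    LeF o S (Prod.fst '' q) a.1 b.1 ↔ LeF o T (Prod.snd '' q) a.2 b.2 :=
  or_congr (and_congr (cell_mat ha hb) (hab _))
    (exists_congr fun s => and_congr (fr_mat hb ha) (not_congr (hba s)))

/-! ### the ordered sum (O2) -/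

/-- for `a <_F b` the relations between `a` and `b` are determined by their cells -/
theorem lt_rl (hM : MonS o S) (hN : MonS o T) {q : Set (M × N)} {a b : M × N}
    (ha : Mat S T q a) (hb : Mat S T q b) (h1 : LeF o S (Prod.fst '' q) a.1 b.1)
    (h2 : ¬ LeF o S (Prod.fst '' q) b.1 a.1) (h3 : LeF o T (Prod.snd '' q) a.2 b.2)
    (h4 : ¬ LeF o T (Prod.snd '' q) b.2 a.2) (R : L.Relations 2) :
    (Rl S R a.1 b.1 ↔ Rl T R a.2 b.2) ∧ (Rl S R b.1 a.1 ↔ Rl T R b.2 a.2) := by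
  have key : ∀ Q : L.Relations 2, Rl S Q a.1 b.1 ↔ Rl T Q a.2 b.2 := by
    intro Q
    by_cases hfr : Fr o S (Prod.fst '' q) Q a.1 b.1
    · have hfr' := (fr_mat ha hb).mp hfr
      have h5 : Rl S Q a.1 b.1 := by
        by_contra h
        exact h2 (Or.inr ⟨Q, hfr, h⟩)
      have h6 : Rl T Q a.2 b.2 := by
        by_contra h
        exact h4 (Or.inr ⟨Q, hfr', h⟩)
      exact ⟨fun _ => h6, fun _ => h5⟩
    · -- as in the proof of the cross rule
      by_cases h : ∃ c ∈ q, ∃ P, Sb o S Q a.1 P c.1 ∧ Sp o S Q a.1 P c.1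
      · obtain ⟨c, hc, P, h1, h2⟩ := h
        have h3 : Sb o T Q a.2 P c.2 := by
          unfold Sb at h1 ⊢
          rwa [← ha c hc]
        have h4 : Sp o T Q a.2 P c.2 := by
          unfold Sp at h2 ⊢
          rwa [← ha c hc]
        rw [sb_iff hM] at h1
        rw [sb_iff hN] at h3
        rw [sp_iff hM] at h2
        rw [sp_iff hN] at h4
        have e1 : Rl S Q a.1 b.1 ↔ Rl S P c.1 b.1 := ⟨h2 _, h1 _⟩
        have e2 : Rl T Q a.2 b.2 ↔ Rl T P c.2 b.2 := ⟨h4 _, h3 _⟩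
        rw [e1, e2]
        exact hb c hc P
      · push Not at h
        unfold Fr at hfr
        push Not at hfr
        obtain ⟨_, ⟨c, hc, rfl⟩, P, h5⟩ := hfr
        have h6 : ¬ (¬ Rl S P c.1 b.1 ↔ Sb o S Q a.1 P c.1) := by
          intro h6
          obtain ⟨h7, h8⟩ := h5 h6
          exact h c hc P h7 h8
        by_cases h7 : Rl S P c.1 b.1
        · have h8 : Sb o S Q a.1 P c.1 := by
            by_contra h8
            exact h6 ⟨fun h9 => absurd h7 h9, fun h9 => absurd h9 h8⟩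
          have h9 : Sb o T Q a.2 P c.2 := by
            unfold Sb at h8 ⊢
            rwa [← ha c hc]
          have h10 := (hb c hc P).mp h7
          exact ⟨fun _ => (sb_iff hN _ _ _ _).mp h9 _ h10,
            fun _ => (sb_iff hM _ _ _ _).mp h8 _ h7⟩
        · have h8 : ¬ Sb o S Q a.1 P c.1 := fun h8 => h6 ⟨fun _ => h8, fun _ => h7⟩
          have h9 : Sp o S Q a.1 P c.1 := (sb_or_sp hM _ _ _ _).resolve_left h8
          have h10 : Sp o T Q a.2 P c.2 := by
            unfold Sp at h9 ⊢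
            rwa [← ha c hc]
          have h11 : ¬ Rl T P c.2 b.2 := fun h' => h7 ((hb c hc P).mpr h')
          exact ⟨fun h' => absurd ((sp_iff hM _ _ _ _).mp h9 _ h') h7,
            fun h' => absurd ((sp_iff hN _ _ _ _).mp h10 _ h') h11⟩
  refine ⟨key R, ?_⟩
  have h5 := key (o.st R)
  rw [hM.star, hN.star] at h5
  exact not_iff_not.mp h5

/-! ### saturations -/

theorem sat_comm (x y : M) : Sat S x y = Sat S y x := by
  ext u
  exact exists_congr fun R => not_congr ⟨fun h => h.symm, fun h => h.symm⟩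

theorem sat_self (x : M) : Sat S x x = ∅ := by
  ext u
  constructor
  · rintro ⟨R, h⟩
    exact absurd Iff.rfl h
  · exact fun h => h.elim

theorem sat_tri (x y z : M) : Sat S x z ⊆ Sat S x y ∪ Sat S y z := by
  rintro u ⟨R, h⟩
  by_cases h1 : Rl S R x u ↔ Rl S R y u
  · exact Or.inr ⟨R, fun h2 => h (h1.trans h2)⟩
  · exact Or.inl ⟨R, h1⟩

theorem mem_sat_of_le (hM : MonS o S) (h : Rl S o.le x y) :
    u ∈ Sat S x y ↔ ∃ R, Rl S R x u ∧ ¬ Rl S R y u := by
  constructor
  · rintro ⟨R, h1⟩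
    refine ⟨R, ?_⟩
    by_contra h2
    refine h1 ⟨fun h3 => ?_, fun h3 => rl_mono_left hM h h3⟩
    by_contra h4
    exact h2 ⟨h3, h4⟩
  · rintro ⟨R, h1, h2⟩
    exact ⟨R, fun h3 => h2 (h3.mp h1)⟩

/-- the saturation is the set of the elements which separate `x` and `y` -/
theorem mem_sat_iff_cell (hM : MonS o S) : u ∈ Sat S x y ↔ ¬ Cell S {u} x y := by
  constructor
  · rintro ⟨R, h⟩ h1
    apply h
    have h2 := h1 u rfl (o.st R)
    rw [hM.star, hM.star] at h2
    exact not_iff_not.mp h2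
  · intro h
    by_contra h1
    apply h
    rintro f rfl R
    by_contra h2
    apply h1
    refine ⟨o.st R, fun h3 => h2 ?_⟩
    rw [hM.star, hM.star] at h3
    exact not_iff_not.mp h3

theorem left_mem_sat (hM : MonS o S) (h : x ≠ y) : x ∈ Sat S x y := by
  rw [mem_sat_iff_cell hM]
  intro h1
  exact h (h1.eq_of_mem hM (mem_singleton x))

theorem right_mem_sat (hM : MonS o S) (h : x ≠ y) : y ∈ Sat S x y := by
  rw [sat_comm]
  exact left_mem_sat hM h.symm

/-- elements between -/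
theorem between_mem_sat (hM : MonS o S) (h1 : Rl S o.le x u) (h2 : Rl S o.le u y) (h : x ≠ y) :
    u ∈ Sat S x y := by
  rw [mem_sat_iff_cell hM]
  intro h3
  apply h
  have h4 := h3 u rfl o.le
  have h5 := h3 u rfl (o.st o.le)
  rw [hM.star, hM.star] at h5
  have h6 : Rl S o.le u x := h4.mpr h2
  have h7 : Rl S o.le y u := by
    by_contra h7
    exact (h5.mpr h7) h1
  rw [hM.antisymm x u h1 h6, hM.antisymm u y h2 h7]

theorem sat_mono (hM : MonS o S) (h1 : Rl S o.le x y) (h2 : Rl S o.le y z) :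
    Sat S x y ⊆ Sat S x z ∧ Sat S y z ⊆ Sat S x z := by
  constructor
  · intro u hu
    rw [mem_sat_of_le hM h1] at hu
    obtain ⟨R, h3, h4⟩ := hu
    rw [mem_sat_of_le hM (hM.trans _ _ _ h1 h2)]
    exact ⟨R, h3, fun h => h4 (rl_mono_left hM h2 h)⟩
  · intro u hu
    rw [mem_sat_of_le hM h2] at hu
    obtain ⟨R, h3, h4⟩ := hu
    rw [mem_sat_of_le hM (hM.trans _ _ _ h1 h2)]
    exact ⟨R, rl_mono_left hM h1 h3, h4⟩

/-- **S1** -/
theorem sat_sub (hM : MonS o S) (hxy : Rl S o.le x y) (huv : Rl S o.le u v)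
    (hu : Rl S R x u) (hv : ¬ Rl S R y v) : Sat S u v ⊆ Sat S x y := by
  intro z hz
  rw [mem_sat_of_le hM huv] at hz
  obtain ⟨Q, h1, h2⟩ := hz
  rw [mem_sat_of_le hM hxy]
  refine ⟨o.cm R Q, (hM.comp _ _ _ _).mpr ⟨u, hu, h1⟩, fun h => ?_⟩
  obtain ⟨w, hw1, hw2⟩ := (hM.comp _ _ _ _).mp h
  rcases hM.total v w with h3 | h3
  · exact h2 (rl_mono_left hM h3 hw2)
  · exact hv (rl_mono_right hM h3 hw1)

/-- **S2** -/
theorem sat_iv (hM : MonS o S) (x y : M) : Iv o S {x, y} (Sat S x y) := by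
  have main : ∀ x y : M, Rl S o.le x y → Iv o S {x, y} (Sat S x y) := by
    intro x y hxy z hz z' hzz
    have hx : x ∈ ({x, y} : Set M) := Or.inl rfl
    have hy : y ∈ ({x, y} : Set M) := Or.inr rfl
    rw [mem_sat_of_le hM hxy] at hz ⊢
    obtain ⟨R, h1, h2⟩ := hz
    rcases hzz with hzz | ⟨t, ht⟩
    · exact ⟨R, (hzz x hx R).mp h1, fun h => h2 ((hzz y hy R).mpr h)⟩
    · -- `t(z)` is between the cuts `t⁺(R(x))` and `t⁻(R(y))`
      have h3 : Sb o S t z (o.st (o.cm (o.st t) (o.st R))) y := by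
        rw [sb_iff hM]
        intro w hw
        rw [hM.star, hM.comp] at hw
        by_contra h4
        exact hw ⟨z, (hM.star t z w).mpr h4, (hM.star R y z).mpr h2⟩
      have h4 : ¬ Rl S (o.st (o.cm (o.st t) (o.st R))) y z' := (ht.sb hy _).mp h3
      have h5 : Sp o S t z (o.cm R t) x := by
        rw [sp_iff hM]
        intro w hw
        exact (hM.comp _ _ _ _).mpr ⟨z, h1, hw⟩
      have h6 : Rl S (o.cm R t) x z' := (ht.sp hM hx _).mp h5
      refine ⟨o.cm R t, h6, fun h7 => h4 ?_⟩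
      rw [hM.star, hM.comp]
      rintro ⟨w, hw1, hw2⟩
      rw [hM.star] at hw1 hw2
      obtain ⟨w', hw3, hw4⟩ := (hM.comp _ _ _ _).mp h7
      rcases hM.total w w' with h8 | h8
      · exact hw1 (rl_mono_left hM h8 hw4)
      · exact hw2 (rl_mono_right hM h8 hw3)
  rcases hM.total x y with h | h
  · exact main x y h
  · rw [sat_comm, pair_comm]
    exact main y x h

/-- the link given by an element of a saturation -/
theorem fr_of_mem_sat (hM : MonS o S) (h : Cell S F u v) (h1 : Rl S R u z) (h2 : ¬ Rl S R v z) :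
    Fr o S F R u z := by
  intro f hf Q
  have e1 : Sb o S R u Q f ↔ Sb o S R v Q f := by
    unfold Sb
    rw [h f hf]
  have e2 : Sp o S R u Q f ↔ Sp o S R v Q f := by
    unfold Sp
    rw [h f hf]
  have k1 : Sb o S R u Q f → ¬ Rl S Q f z := by
    intro h3 h4
    exact h2 ((sb_iff hM _ _ _ _).mp (e1.mp h3) z h4)
  have k2 : Sp o S R u Q f → Rl S Q f z := fun h3 => (sp_iff hM _ _ _ _).mp h3 z h1
  refine ⟨⟨fun h3 => ?_, k1⟩, fun h3 => k1 h3.1 (k2 h3.2)⟩
  rcases sb_or_sp hM R u Q f with h4 | h4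
  · exact h4
  · exact absurd (k2 h4) h3

/-- **S3** -/
theorem sat_sub_iv (hM : MonS o S) {X : Set M} (hX : Iv o S F X) (hu : u ∈ X)
    (h : Cell S F u v) : Sat S u v ⊆ X := by
  have main : ∀ u v : M, Rl S o.le u v → u ∈ X → Cell S F u v → Sat S u v ⊆ X := by
    intro u v huv hu h z hz
    rw [mem_sat_of_le hM huv] at hz
    obtain ⟨R, h1, h2⟩ := hz
    exact hX u hu z (Or.inr ⟨R, fr_of_mem_sat hM h h1 h2⟩)
  rcases hM.total u v with h1 | h1
  · exact main u v h1 hu h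
  · rw [sat_comm]
    exact main v u h1 ((hX.cell h).mp hu) h.symm

theorem sat_mat {q : Set (M × N)} {a : M × N} (ha : Mat S T q a) {x y : M} {x' y' : N}
    (hx : (x, x') ∈ q) (hy : (y, y') ∈ q) : a.1 ∈ Sat S x y ↔ a.2 ∈ Sat T x' y' :=
  exists_congr fun R => not_congr (iff_congr (ha (x, x') hx R) (ha (y, y') hy R))

end Pool.Agent.Mon
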